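import Pool.Agent.Helper98.GY.Stmts
import Pool.Agent.Helper72.DZ.PTC3

/-!
Row PTC of the sheet GY: the random part for a general compact base (MP_7a8f48_an).
-/

open Finset Filter MeasureTheory Topology
open scoped ComplexConjugate InnerProductSpace

namespace Pool.Agent.Helper72.GY

open Pool.Agent.Helper98.GY

open Pool.Agent.Helper16.AZ (T E Op mm fc Ind)
open Pool.Agent.Helper16.BZ (co Wk EE ff EQ ff_norm ff_norm')
open Pool.Agent.Helper16.MD (MS PB Am RW Rich)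
open Pool.Agent.Helper40.DZ (ptc3_sm ptc3_num)

theorem st_PTC (hkt : Pool.Agent.Helper16.BZ.ST_KT2) (hgam : Pool.Agent.Helper16.BZ.ST_GAM2)
    (hw : Pool.Agent.Helper16.MD.ST_WND) : ST_PTC := by
  intro η hη hη1
  obtain ⟨c₀, hc₀, hkt'⟩ := hkt η hη hη1
  refine ⟨c₀ ^ 2 / 8, by positivity, ?_⟩
  intro Y _ _ _ _ ν _ d S φ c u x H hSTR hS _ hEQ hφ hc hc2 hu hH hyp
  by_contra hcon
  have hfreq : ∃ᶠ N : ℕ in atTop, η * N ≤ ‖MS (ff S φ c u x) N‖ := by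
    rw [Filter.not_eventually] at hcon
    exact hcon.mono fun N hN => le_of_lt (not_le.1 hN)
  obtain ⟨V, hV, hcV⟩ : ∃ V : ℝ, 1 ≤ V ∧ ∀ x, ‖c x‖ ≤ V := by
    obtain ⟨C, hC⟩ := (isCompact_range hc).isBounded.exists_norm_le
    exact ⟨max C 1, le_max_right _ _, fun y => (hC _ (Set.mem_range_self y)).trans
      (le_max_left _ _)⟩
  have hV0 : 0 < V := by linarith
  obtain ⟨K, hK2, hK⟩ := hw (64 * V ^ 2 / η ^ 2)
  obtain ⟨I₃, hI₃⟩ := eventually_atTop.1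
    (hSTR d φ c x (c₀ ^ 2 / 8) H hφ hc (by positivity) hH hyp)
  obtain ⟨I₂, hI₂⟩ := pow_unbounded_of_one_lt (24 * V / η) (one_lt_two : (1 : ℝ) < 2)
  obtain ⟨I, hI⟩ : ∃ I : ℕ, I = I₂ + I₃ + 1 := ⟨_, rfl⟩
  have hmem : ∀ i ∈ RW 1 I K, I ≤ i ∧ Rich 1 i := by
    intro i hi
    unfold RW at hi
    rw [Finset.mem_filter, Finset.mem_Ico] at hi
    exact ⟨hi.1.1, hi.2⟩
  have h24 : ∀ i ∈ RW 1 I K, 24 * V / η ≤ (2 : ℝ) ^ i := by
    intro i hi
    have h1 : I ≤ i := (hmem i hi).1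
    exact hI₂.le.trans (pow_le_pow_right₀ one_le_two (by omega))
  have hAm : 64 * V ^ 2 / η ^ 2 ≤ Am 1 (RW 1 I K) :=
    hK I 1 (by omega) le_rfl (Nat.one_le_two_pow)
  obtain ⟨i, hiR, Q, hQ, hfr⟩ := hkt' V (RW 1 I K) (ff S φ c u x) hV
    (fun n => ff_norm S φ c hφ.2 u x n V hcV hu)
    (fun p hp => ptc3_sm S ν φ c u x hEQ hφ.2 hc hc2 hu p hp) h24 hAm hfreq
  obtain ⟨hIi, hrich⟩ := hmem i hiR
  obtain ⟨H', hH', hstr⟩ := hI₃ i (by omega) hrich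
  obtain ⟨b, hb⟩ : ∃ b : ℝ, b = ((PB 1 i).card : ℝ) := ⟨_, rfl⟩
  have hb0 : 0 < b := by
    rw [hb]
    have h1 : 0 < (PB 1 i).card := by
      rcases Nat.eq_zero_or_pos (PB 1 i).card with h0 | h0
      · exfalso
        unfold Rich at hrich
        rw [h0, mul_zero] at hrich
        exact absurd hrich (by simp)
      · exact h0
    exact_mod_cast h1
  have hqb : (Q.card : ℝ) ≤ b := by
    rw [hb]
    exact_mod_cast Finset.card_le_card hQ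
  have hq0 : (0 : ℝ) ≤ Q.card := Nat.cast_nonneg _
  have hlarge : ∀ᶠ M : ℕ in atTop, 16 * V ^ 4 * H' / c₀ ^ 2 + H' < (M : ℝ) :=
    tendsto_natCast_atTop_atTop.eventually_gt_atTop _
  obtain ⟨M, hM1, hM2, hM3⟩ := (hfr.and_eventually ((hstr Q hQ).and hlarge)).exists
  have hg := hgam Y S d φ c u x V Q H' M hφ.2 hcV hu hH'
  have hHpos : (0 : ℝ) < (H' : ℝ) := by exact_mod_cast hH'
  have h0 : (0 : ℝ) ≤ 16 * V ^ 4 * H' / c₀ ^ 2 := by positivity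
  have hHM : (H' : ℝ) ≤ M := by linarith
  have hM4 : 16 * V ^ 4 * H' < c₀ ^ 2 * M := by
    have h1 : 16 * V ^ 4 * H' / c₀ ^ 2 < M := by linarith
    rw [div_lt_iff₀ (by positivity)] at h1
    linarith
  rw [← hb] at hM1 hM2
  refine ptc3_num hc₀ hV hb0 hq0 hqb hHpos hHM hM4 _ ?_ ?_ hM1 hg
  · exact Finset.sum_nonneg fun _ _ => Finset.sum_nonneg fun _ _ =>
      Finset.sum_nonneg fun _ _ => sq_nonneg _
  · refine hM2.trans (le_of_eq ?_)
    ring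

end Pool.Agent.Helper72.GY
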